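import Pool.Agent.H66.GUA.Targets2

/-!
Row GI of the project GU (chapter A2/A3) on `MP_c59857_nt`: the Fourier coefficients on the
cyclic group are integer sums.
-/

set_option autoImplicit false

open Finset Filter Topology

namespace Pool.Agent.H32.GUA

open Pool.Agent.H31.DP
open Pool.Agent.H31.DPD
open Pool.Agent.H66.GUA
open Pool.Agent.H28.GU (Dl hat gG Fc)

/-- The product over the subsets of `Fin (d + 1)`. -/
lemma prod_sub_succ {d : ℕ} (F : Finset (Fin (d + 1)) → ℝ) :
    ∏ J : Finset (Fin (d + 1)), F J =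
      ∏ I : Finset (Fin d), F (I.map (Fin.succEmb d)) *
        F (insert 0 (I.map (Fin.succEmb d))) := by
  classical
  have h0 : ∀ I : Finset (Fin d), (0 : Fin (d + 1)) ∉ I.map (Fin.succEmb d) := by
    intro I h
    obtain ⟨i, -, hi⟩ := Finset.mem_map.1 h
    exact Fin.succ_ne_zero i hi
  have hu : (Finset.univ : Finset (Fin (d + 1))) =
      insert 0 ((Finset.univ : Finset (Fin d)).map (Fin.succEmb d)) := by
    rw [Fin.univ_succ, Finset.cons_eq_insert]
    rfl
  rw [← Finset.powerset_univ, hu, Finset.prod_powerset_insert (h0 _), ← Finset.prod_mul_distrib,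
    Finset.powerset_univ.symm]
  symm
  refine Finset.prod_bij (fun I _ => I.map (Fin.succEmb d)) ?_ ?_ ?_ ?_
  · intro I _
    rw [Finset.mem_powerset]
    exact Finset.map_subset_map.2 (Finset.subset_univ _)
  · intro I _ J _ h
    exact Finset.map_injective _ h
  · intro J hJ
    rw [Finset.mem_powerset, Finset.subset_map_iff] at hJ
    obtain ⟨I, -, rfl⟩ := hJ
    exact ⟨I, Finset.mem_powerset.2 (Finset.subset_univ _), rfl⟩
  · intro I _
    rfl

lemma sI_map_succ {d : ℕ} (s : Fin (d + 1) → ℤ) (I : Finset (Fin d)) :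
    sI s (I.map (Fin.succEmb d)) = sI (Fin.tail s) I := by
  unfold sI
  rw [Finset.sum_map]
  rfl

lemma sI_insert_succ {d : ℕ} (s : Fin (d + 1) → ℤ) (I : Finset (Fin d)) :
    sI s (insert 0 (I.map (Fin.succEmb d))) = sI (Fin.tail s) I + s 0 := by
  classical
  have h0 : (0 : Fin (d + 1)) ∉ I.map (Fin.succEmb d) := by
    intro h
    obtain ⟨i, -, hi⟩ := Finset.mem_map.1 h
    exact Fin.succ_ne_zero i hi
  unfold sI
  rw [Finset.sum_insert h0, Finset.sum_map, add_comm]
  rfl

/-- The cube products on the cyclic group. -/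
lemma Dl_val {q : ℕ} [NeZero q] {N : ℕ} (hN : 5 * N ≤ q) : ∀ (d : ℕ) (s : Fin d → ZMod q)
    (u : ZMod q → ℝ) (v : ℤ → ℝ), (∀ y, ¬(1 ≤ y ∧ y ≤ (N : ℤ)) → v y = 0) →
    (∀ x, u x = v (x.val : ℤ)) → ∀ x : ZMod q,
      Dl d s u x = ∏ I : Finset (Fin d), v ((x.val : ℤ) + sI (lft s) I) := by
  intro d
  induction d with
  | zero =>
    intro s u v hv hu x
    have h1 : (Finset.univ : Finset (Finset (Fin 0))) = {∅} := by
      ext I
      rw [Finset.mem_singleton]
      exact ⟨fun _ => Finset.eq_empty_of_isEmpty I, fun _ => Finset.mem_univ _⟩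
    rw [h1, Finset.prod_singleton]
    unfold sI
    rw [Finset.sum_empty, add_zero, ← hu]
    rfl
  | succ d ih =>
    intro s u v hv hu x
    have hq : 0 < q := Nat.pos_of_ne_zero (NeZero.ne q)
    have h1 : ∀ x : ZMod q, u x * u (x + s 0) =
        v (x.val : ℤ) * v ((x.val : ℤ) + (s 0).valMinAbs) := by
      intro x
      by_cases hx : 1 ≤ (x.val : ℤ) ∧ (x.val : ℤ) ≤ N
      · rw [hu x, hu (x + s 0)]
        congr 1
        have h2 : (((x + s 0).val : ℤ) : ZMod q) = (((x.val : ℤ) + (s 0).valMinAbs : ℤ) : ZMod q) := by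
          rw [Int.cast_add, Int.cast_natCast, Int.cast_natCast, ZMod.natCast_zmod_val,
            ZMod.natCast_zmod_val, ZMod.coe_valMinAbs]
        rw [ZMod.intCast_eq_intCast_iff_dvd_sub] at h2
        obtain ⟨k, hk⟩ := h2
        have h3 := (x + s 0).val_lt
        have h4 : ((x + s 0).val : ℤ) < q := by exact_mod_cast h3
        have h5 : (0 : ℤ) ≤ ((x + s 0).val : ℤ) := Int.natCast_nonneg _
        have h6 := ZMod.valMinAbs_mem_Ioc (s 0)
        rw [Set.mem_Ioc] at h6
        obtain ⟨h6, h7⟩ := h6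
        have h8 : (5 : ℤ) * N ≤ q := by exact_mod_cast hN
        obtain ⟨hx1, hx2⟩ := hx
        have hqz : (0 : ℤ) < q := by exact_mod_cast hq
        have hk1 : k ≤ 0 := by
          by_contra hc
          push Not at hc
          have : (q : ℤ) * 1 ≤ q * k := mul_le_mul_of_nonneg_left (by omega) (by omega)
          omega
        have hk2 : -1 ≤ k := by
          by_contra hc
          push Not at hc
          have : (q : ℤ) * k ≤ q * (-2) := mul_le_mul_of_nonneg_left (by omega) (by omega)
          omega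
        have hk3 : k = 0 ∨ k = -1 := by omega
        rcases hk3 with rfl | rfl
        · rw [mul_zero] at hk
          congr 1
          omega
        · rw [hv _ (by omega), hv _ (by omega)]
      · rw [hu x, hv _ hx, zero_mul, zero_mul]
    have h2 := ih (Fin.tail s) (fun x => u x * u (x + s 0))
      (fun y => v y * v (y + (s 0).valMinAbs)) (fun y hy => by rw [hv y hy, zero_mul]) h1 x
    change Dl d (Fin.tail s) (fun x => u x * u (x + s 0)) x = _
    rw [h2, prod_sub_succ]
    refine Finset.prod_congr rfl fun I _ => ?_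
    rw [sI_map_succ, sI_insert_succ]
    have h3 : Fin.tail (lft s) = lft (Fin.tail s) := rfl
    rw [h3, ← add_assoc]
    rfl

theorem pf_GI : T_GI := by
  intro d l h q _ N s ξ hN
  classical
  have hq : 0 < q := Nat.pos_of_ne_zero (NeZero.ne q)
  have h1 : ∀ x : ZMod q, Dl d s (gG q h N) x =
      if (x.val : ℤ) ∈ IC N (lft s) then GC h 1 (lft s) (x.val : ℤ) else 0 := by
    intro x
    rw [Dl_val hN d s (gG q h N) (Fc h 1 N) (fun y hy => if_neg hy) (fun x => rfl) x]
    split_ifs with hx
    · unfold GC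
      refine Finset.prod_congr rfl fun I _ => ?_
      unfold IC at hx
      rw [Finset.mem_filter] at hx
      exact if_pos (hx.2 I)
    · unfold IC at hx
      rw [Finset.mem_filter, not_and_or] at hx
      rcases hx with hx | hx
      · refine Finset.prod_eq_zero (Finset.mem_univ ∅) ?_
        have h2 : sI (lft s) ∅ = 0 := Finset.sum_empty
        rw [h2, add_zero]
        refine if_neg fun hc => hx ?_
        rw [Finset.mem_Icc]
        exact hc
      · push Not at hx
        obtain ⟨I, hI⟩ := hx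
        refine Finset.prod_eq_zero (Finset.mem_univ I) ?_
        refine if_neg fun hc => ?_
        have := hI hc.1
        omega
  have h2 : ∀ n : ℤ, ZMod.stdAddChar (((n : ℤ) : ZMod q) * ξ) =
      ee ((n : ℝ) * ((ξ.val : ℝ) / q)) := by
    intro n
    have e1 : ((n : ℤ) : ZMod q) * ξ = ((n * (ξ.val : ℤ) : ℤ) : ZMod q) := by
      push_cast
      rw [ZMod.natCast_zmod_val]
    rw [e1, ZMod.stdAddChar_coe]
    unfold ee
    congr 1
    push_cast
    ring
  unfold hat hs
  have h3 : ∑ x : ZMod q, ((Dl d s (gG q h N) x : ℝ) : ℂ) * ZMod.stdAddChar (x * ξ) =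
      ∑ x ∈ Finset.univ.filter (fun x : ZMod q => (x.val : ℤ) ∈ IC N (lft s)),
        ((GC h 1 (lft s) (x.val : ℤ) : ℝ) : ℂ) * ee (((x.val : ℤ) : ℝ) * ((ξ.val : ℝ) / q)) := by
    rw [Finset.sum_filter]
    refine Finset.sum_congr rfl fun x _ => ?_
    rw [h1 x, ← h2, Int.cast_natCast, ZMod.natCast_zmod_val]
    split_ifs
    · rfl
    · rw [Complex.ofReal_zero, zero_mul]
  rw [h3]
  refine Finset.sum_bij (fun x _ => (x.val : ℤ)) ?_ ?_ ?_ ?_
  · intro x hx
    exact (Finset.mem_filter.1 hx).2
  · intro x _ y _ hxy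
    exact ZMod.val_injective q (by exact_mod_cast hxy)
  · intro n hn
    have hn1 : 1 ≤ n ∧ n ≤ (N : ℤ) := by
      unfold IC at hn
      rw [Finset.mem_filter, Finset.mem_Icc] at hn
      exact hn.1
    have hn2 : (((n.toNat : ZMod q).val : ℕ) : ℤ) = n := by
      rw [ZMod.val_natCast, Nat.mod_eq_of_lt (by omega)]
      omega
    refine ⟨(n.toNat : ZMod q), ?_, hn2⟩
    rw [Finset.mem_filter, hn2]
    exact ⟨Finset.mem_univ _, hn⟩
  · intro x _
    rfl

end Pool.Agent.H32.GUA
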