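import Pool.Agent.H66.GUA.Targets

/-!
Row SW of the project GU (chapter A2/A3) on `MP_c59857_nt`: the sum over the primes.
-/

set_option autoImplicit false

open Finset Filter Topology

namespace Pool.Agent.H32.GUA

open Pool.Agent.H91.LF (lz Bdd Mean sqw par)
open Pool.Agent.H24.T2 (Pset box cub)
open Pool.Agent.H31.DP
open Pool.Agent.H31.DPD
open Pool.Agent.H66.GUA

theorem pf_SW (hP1 : T_P1) (hAF : T_AF) (hEV : T_EV) : T_SW := by
  intro d l h q _ N M Q P A δ θ τ R hQ hN hNq hδ hθ hθδ hA hR hhs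
  classical
  have hkey : ∀ p ∈ A, (2 * ((M / Q : ℕ) : ℝ) + 1) ^ d *
      (δ ^ 3 / 8 * (P : ℝ) ^ 2 * (q : ℝ) ^ (2 * d + 2)) ≤
      Q * ∑ u ∈ box d (M / Q), ∑ c ∈ box d (3 * N), ∑ b : Fin d → ZMod q,
        if (red q (pt Q u c (p : ℤ)), b) ∈ R then
          (RZ h p Q M (sm p (pt Q u c (p : ℤ))) (phs τ Q u c (p : ℤ))).re else 0 := by
    intro p hp
    obtain ⟨hpp, hpQ, hPp, hpM, hMN, hMNp, hlen, hDD⟩ := hA p hp
    have h1 := hP1 d l h q N M p Q δ θ τ R hpp hpQ hQ hpM hMN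
      (hMNp.trans (Nat.mul_le_mul_right _ (by omega))) hδ hθ hlen hDD hθδ hR hhs
    have h2 := hAF d q N Q p (M / Q) R
      (fun s _ => (RZ h p Q M (sm p s) (((τ (red q s)).val : ℝ) / q / p)).re)
      hpp.pos hN hNq ?_ ?_
    · have hred : ∀ x : Fin d → ZMod q, red q (lft x) = x := by
        intro x
        funext i
        exact ZMod.coe_valMinAbs (x i)
      simp only [hred] at h2
      have h3 : (2 * ((M / Q : ℕ) : ℝ) + 1) ^ d *
          (δ ^ 3 / 8 * (P : ℝ) ^ 2 * (q : ℝ) ^ (2 * d + 2)) ≤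
          (2 * ((M / Q : ℕ) : ℝ) + 1) ^ d *
            (Q * ∑ x ∈ R, (RZ h p Q M (sm p (lft x.1)) (((τ x.1).val : ℝ) / q / p)).re) := by
        refine mul_le_mul_of_nonneg_left (le_trans ?_ h1) (by positivity)
        have hPp' : (P : ℝ) ≤ p := by exact_mod_cast hPp
        have : (P : ℝ) ^ 2 ≤ (p : ℝ) ^ 2 := pow_le_pow_left₀ (Nat.cast_nonneg _) hPp' 2
        gcongr
      refine h3.trans (le_of_eq ?_)
      rw [mul_left_comm, h2]
      refine congrArg _ ?_
      refine Finset.sum_congr rfl fun u _ => Finset.sum_congr rfl fun c _ =>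
        Finset.sum_congr rfl fun b _ => ?_
      split_ifs
      · unfold phs
        rw [Int.cast_natCast]
      · rfl
    · have e1 : p * (Q / p * (M / Q)) ≤ M := by
        rw [← mul_assoc, Nat.mul_div_cancel' hpQ]
        exact Nat.mul_div_le M Q
      have e2 : Q / p * (M / Q) ≤ M / p := (Nat.le_div_iff_mul_le hpp.pos).2 (by
        rw [mul_comm]; exact e1)
      omega
    · intro s b hs
      obtain ⟨i, hi⟩ := hs
      have h3 := (hEV d l h p Q M (sm p s) ⟨i, ?_⟩).1 (((τ (red q s)).val : ℝ) / q / p)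
      · simp only [h3, Complex.zero_re]
      · unfold sm
        rw [abs_mul, Nat.abs_cast]
        have h4 : (M : ℤ) ≤ (N : ℤ) * p := by exact_mod_cast hMNp
        have h5 : (N : ℤ) * p ≤ |s i| * p := mul_le_mul_of_nonneg_right hi (Int.natCast_nonneg _)
        rw [mul_comm ((p : ℤ))]
        exact h4.trans h5
  have hsum : (A.card : ℝ) * ((2 * ((M / Q : ℕ) : ℝ) + 1) ^ d *
      (δ ^ 3 / 8 * (P : ℝ) ^ 2 * (q : ℝ) ^ (2 * d + 2))) ≤
      ∑ p ∈ A, Q * ∑ u ∈ box d (M / Q), ∑ c ∈ box d (3 * N), ∑ b : Fin d → ZMod q,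
        if (red q (pt Q u c (p : ℤ)), b) ∈ R then
          (RZ h p Q M (sm p (pt Q u c (p : ℤ))) (phs τ Q u c (p : ℤ))).re else 0 := by
    rw [← nsmul_eq_mul, ← Finset.sum_const]
    exact Finset.sum_le_sum hkey
  rw [mul_assoc]
  refine hsum.trans ?_
  rw [← Finset.mul_sum]
  refine mul_le_mul_of_nonneg_left ?_ (Nat.cast_nonneg _)
  unfold Om2
  rw [Finset.sum_comm]
  refine Finset.sum_le_sum fun u _ => ?_
  rw [Finset.sum_comm]
  refine Finset.sum_le_sum fun c _ => ?_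
  rw [Finset.sum_comm]
  refine Finset.sum_le_sum fun b _ => ?_
  have h4 : ∑ p ∈ A, (if (red q (pt Q u c (p : ℤ)), b) ∈ R then
      (RZ h p Q M (sm p (pt Q u c (p : ℤ))) (phs τ Q u c (p : ℤ))).re else 0) =
      (∑ s₀ ∈ mul Q M, ∑ p ∈ As A R Q u c b, ee (s₀ * phs τ Q u c (p : ℤ)) *
      ((CAc h p M (cns s₀ (sm p (pt Q u c (p : ℤ)))) : ℝ) : ℂ)).re := by
    rw [Finset.sum_comm, Complex.re_sum, As, Finset.sum_filter]
    rfl
  rw [h4]
  exact (Complex.re_le_norm _).trans (norm_sum_le _ _)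

end Pool.Agent.H32.GUA
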